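import Pool.Agent.K7.H49.ML.Stm2

set_option autoImplicit false

/-!
# ML2, job MINOR: a nonzero minor of order the rank
-/

open Finset Module

namespace Pool.Agent.K7.H63.MLMINOR

/-- an independent subfamily indexed by `Fin (rank)` -/
theorem sub_family {V : Type} [AddCommGroup V] [Module ℚ V] {k : ℕ} (v : Fin k → V) (r : ℕ)
    (hr : r = finrank ℚ (Submodule.span ℚ (Set.range v))) :
    ∃ C : Fin r → Fin k, Function.Injective C ∧ LinearIndependent ℚ (fun c => v (C c)) := by
  obtain ⟨κ, a, ha, hs, hli⟩ := exists_linearIndependent' ℚ v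
  have : Finite κ := Finite.of_injective a ha
  have : Fintype κ := Fintype.ofFinite κ
  have hc : Fintype.card κ = r := by
    rw [hr, ← hs]
    exact (finrank_span_eq_card hli).symm
  let e : Fin r ≃ κ := (Fintype.equivFinOfCardEq hc).symm
  refine ⟨fun c => a (e c), fun x y h => e.injective (ha h), ?_⟩
  exact hli.comp e e.injective

open Pool.Agent.K7.H49.ML in
/-- **ML2 MINOR.** -/
theorem stMinor : StMinor := by
  intro d m w r hr
  obtain ⟨C, hC, hli⟩ := sub_family w r hr
  have hrk : (Matrix.of fun (c : Fin r) (i : Fin d) => w (C c) i).rank = r := by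
    have h := LinearIndependent.rank_matrix (M := Matrix.of fun (c : Fin r) (i : Fin d) => w (C c) i) hli
    simpa using h
  obtain ⟨R, hR, hli2⟩ := sub_family (fun i : Fin d => fun c : Fin r => w (C c) i) r (by
    conv_lhs => rw [← hrk]
    rw [Matrix.rank_eq_finrank_span_cols]
    rfl)
  refine ⟨C, R, hC, hR, ?_⟩
  have hu : IsUnit (Matrix.of fun (l c : Fin r) => w (C c) (R l)) := by
    rw [← Matrix.linearIndependent_rows_iff_isUnit]
    exact hli2
  rw [Matrix.isUnit_iff_isUnit_det] at hu
  exact hu.ne_zero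

end Pool.Agent.K7.H63.MLMINOR
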