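import Mathlib
import Pool.Agent.K7.H87.EX.Stm

set_option autoImplicit false

/-! Project EX, job CONE. Author: helper63. -/

namespace Pool.Agent.K7.H63.EXCONE
open Pool.Agent.K7.H87.EX

theorem t : StCone := by
  classical
  intro K _ N hN P hP
  have hinv : ∀ a : N, (a : K) ∈ P → ((a⁻¹ : N) : K) ∉ P := by
    intro a h1 h2
    have h3 := hP.mul _ h1 _ h2
    rw [← Subgroup.coe_mul, mul_inv_cancel, Subgroup.coe_one] at h3
    exact hP.one h3
  let L : LinearOrder N :=
    { le := fun a b => a = b ∨ ((a⁻¹ * b : N) : K) ∈ P
      lt := fun a b => ((a⁻¹ * b : N) : K) ∈ P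
      le_refl := fun a => Or.inl rfl
      le_trans := by
        rintro a b c (rfl | h1) h2
        · exact h2
        · rcases h2 with rfl | h2
          · exact Or.inr h1
          · right
            have h3 := hP.mul _ h1 _ h2
            rw [← Subgroup.coe_mul] at h3
            have e : a⁻¹ * b * (b⁻¹ * c) = a⁻¹ * c := by group
            rwa [e] at h3
      lt_iff_le_not_ge := by
        intro a b
        constructor
        · intro h
          refine ⟨Or.inr h, ?_⟩
          rintro (rfl | h2)
          · rw [inv_mul_cancel, Subgroup.coe_one] at h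
            exact hP.one h
          · apply hinv _ h
            have e : (a⁻¹ * b)⁻¹ = b⁻¹ * a := by group
            rwa [e]
        · rintro ⟨rfl | h1, h2⟩
          · exact absurd (Or.inl rfl) h2
          · exact h1
      le_antisymm := by
        rintro a b (rfl | h1) h2
        · rfl
        · rcases h2 with rfl | h2
          · rfl
          · exfalso
            apply hinv _ h1
            have e : (a⁻¹ * b)⁻¹ = b⁻¹ * a := by group
            rwa [e]
      le_total := by
        intro a b
        by_cases h : a = b
        · exact Or.inl (Or.inl h)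
        · have h1 : ((a⁻¹ * b : N) : K) ≠ 1 := by
            intro h2
            apply h
            have h3 : a⁻¹ * b = 1 := Subtype.ext h2
            exact (inv_mul_eq_one.1 h3)
          rcases hP.tot _ (a⁻¹ * b : N).2 h1 with h2 | h2
          · exact Or.inl (Or.inr h2)
          · right
            right
            rw [← Subgroup.coe_inv] at h2
            have e : (a⁻¹ * b)⁻¹ = b⁻¹ * a := by group
            rwa [e] at h2
      toDecidableLE := Classical.decRel _ }
  refine ⟨L, ?_, ?_, ?_, ?_⟩
  · rintro a b c (rfl | h)
    · exact Or.inl rfl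
    · right
      have e : (c * a)⁻¹ * (c * b) = a⁻¹ * b := by group
      rwa [e]
  · rintro a b c (rfl | h)
    · exact Or.inl rfl
    · right
      have h1 := hP.conj ((c : K)⁻¹) _ h
      have e : (((a * c)⁻¹ * (b * c) : N) : K) = (c : K)⁻¹ * ((a⁻¹ * b : N) : K) * ((c : K)⁻¹)⁻¹ := by
        push_cast
        group
      rw [e]
      exact h1
  · rintro g a b (rfl | h)
    · exact Or.inl rfl
    · right
      have h1 := hP.conj g _ h
      have e : (((cj N hN g a)⁻¹ * cj N hN g b : N) : K) = g * ((a⁻¹ * b : N) : K) * g⁻¹ := by
        unfold cj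
        push_cast
        group
      rw [e]
      exact h1
  · intro a
    show (((1 : N)⁻¹ * a : N) : K) ∈ P ↔ (a : K) ∈ P
    rw [inv_one, one_mul]

end Pool.Agent.K7.H63.EXCONE
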