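import Pool.Agent.K7.H84.GG.Stm

set_option autoImplicit false

/-!
# GG, job ID1: `∑ β(F) μ(M/F) = μ(M)` over the flats `F` containing `p`
-/

namespace Pool.Agent.K7.H63.GGID1

open Finset DC813 Pool.Agent.K7.H84.GG

variable {α : Type} [DecidableEq α]

theorem ins_mono {r : Finset α → ℕ} (hr : IsRk r) {A B : Finset α} (h : A ⊆ B) (e : α)
    (he : r (insert e A) = r A) : r (insert e B) = r B := by
  have h1 := hr.submod (insert e A) B
  have h2 : insert e A ∪ B = insert e B := by
    ext x; simp only [mem_union, mem_insert]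
    constructor
    · rintro ((h | h') | h'')
      · exact Or.inl h
      · exact Or.inr (h h')
      · exact Or.inr h''
    · rintro (h | h)
      · exact Or.inl (Or.inl h)
      · exact Or.inr h
  have h3 : A ⊆ insert e A ∩ B := subset_inter (subset_insert _ _) h
  have h4 := hr.mono _ _ h3
  have h5 := hr.mono _ _ (subset_insert e B)
  rw [h2] at h1
  omega

theorem union_eq {r : Finset α → ℕ} (hr : IsRk r) (A S : Finset α)
    (h : ∀ e ∈ S, r (insert e A) = r A) : r (A ∪ S) = r A := by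
  induction S using Finset.induction_on with
  | empty => simp
  | insert a S ha ih =>
    have h1 := ih (fun e he => h e (mem_insert_of_mem he))
    have h2 := ins_mono hr (subset_union_left : A ⊆ A ∪ S) a (h a (mem_insert_self _ _))
    have h3 : A ∪ insert a S = insert a (A ∪ S) := by
      ext x; simp only [mem_union, mem_insert]; tauto
    rw [h3, h2, h1]

theorem sub_cl {r : Finset α → ℕ} {E A : Finset α} (hA : A ⊆ E) : A ⊆ cl r E A := by
  intro x hx
  rw [cl, mem_filter]
  exact ⟨hA hx, by rw [insert_eq_of_mem hx]⟩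

theorem cl_sub {r : Finset α → ℕ} {E A : Finset α} : cl r E A ⊆ E := filter_subset _ _

theorem r_cl {r : Finset α → ℕ} (hr : IsRk r) {E A : Finset α} (hA : A ⊆ E) :
    r (cl r E A) = r A := by
  have h := union_eq hr A (cl r E A) (fun e he => (mem_filter.1 he).2)
  rwa [union_eq_right.2 (sub_cl hA)] at h

theorem cl_fl {r : Finset α → ℕ} (hr : IsRk r) {E A : Finset α} (hA : A ⊆ E) :
    cl r E A ∈ fl r E := by
  rw [fl, mem_filter, mem_powerset]
  refine ⟨cl_sub, fun e he hn => ?_⟩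
  have h1 : r (insert e A) ≠ r A := fun h => hn (by rw [cl, mem_filter]; exact ⟨he, h⟩)
  have h2 := hr.mono _ _ (subset_insert e A)
  have h3 := hr.mono _ _ (insert_subset_insert e (sub_cl (r := r) hA))
  rw [r_cl hr hA]
  omega

theorem cl_min {r : Finset α → ℕ} (hr : IsRk r) {E A L : Finset α} (hL : L ∈ fl r E)
    (hA : A ⊆ L) : cl r E A ⊆ L := by
  intro e he
  rw [cl, mem_filter] at he
  by_contra hn
  have h1 := ins_mono hr hA e he.2
  rw [fl, mem_filter] at hL
  have h2 := hL.2 e he.1 hn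
  omega

theorem cl_unique {r : Finset α → ℕ} (hr : IsRk r) {E A K : Finset α} (hK : K ∈ fl r E)
    (hA : A ⊆ K) (h : r A = r K) : K = cl r E A := by
  refine Subset.antisymm ?_ (cl_min hr hK hA)
  intro e he
  have hKE : K ⊆ E := mem_powerset.1 (mem_filter.1 hK).1
  rw [cl, mem_filter]
  refine ⟨hKE he, ?_⟩
  have h1 := hr.mono _ _ (insert_subset he hA)
  have h2 := hr.mono _ _ (subset_insert e A)
  omega

/-- the unsigned sum of the Moebius function -/
def q (r : Finset α → ℕ) (F K : Finset α) : ℤ :=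
  ∑ X ∈ (K \ F).powerset.filter (fun X => r (X ∪ F) = r K), (-1 : ℤ) ^ X.card

theorem mc_eq {r : Finset α → ℕ} (hr : IsRk r) {E F : Finset α} (hF : F ⊆ E) :
    mc r E F = (-1) ^ (r E - r F) * q r F E := by
  have h1 : con r F (E \ F) = r E - r F := by
    unfold con
    rw [sdiff_union_of_subset hF]
  unfold mc mu q
  rw [h1]
  congr 1
  refine Finset.sum_congr ?_ (fun _ _ => rfl)
  ext X
  rw [mem_filter, mem_filter]
  refine and_congr_right fun hX => ?_
  have h2 := hr.mono _ _ (subset_union_right : F ⊆ X ∪ F)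
  have h3 := hr.mono _ _ hF
  unfold con
  omega

theorem E_fl {r : Finset α → ℕ} {E : Finset α} : E ∈ fl r E := by
  rw [fl, mem_filter]
  exact ⟨mem_powerset_self _, fun e he hn => absurd he hn⟩

/-- `m ζ = 1` -/
theorem sum_q {r : Finset α → ℕ} (hr : IsRk r) {E F L : Finset α}
    (hL : L ∈ fl r E) (hFL : F ⊆ L) :
    ∑ K ∈ (fl r E).filter (fun K => F ⊆ K ∧ K ⊆ L), q r F K = if F = L then 1 else 0 := by
  have hLE : L ⊆ E := mem_powerset.1 (mem_filter.1 hL).1
  unfold q
  have h1 : ∑ K ∈ (fl r E).filter (fun K => F ⊆ K ∧ K ⊆ L),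
      ∑ X ∈ (K \ F).powerset.filter (fun X => r (X ∪ F) = r K), (-1 : ℤ) ^ X.card =
      ∑ X ∈ (L \ F).powerset, ∑ K ∈ ({cl r E (X ∪ F)} : Finset (Finset α)), (-1 : ℤ) ^ X.card := by
    refine Finset.sum_comm' ?_
    intro K X
    rw [mem_filter, mem_filter, mem_powerset, mem_powerset, mem_singleton]
    constructor
    · rintro ⟨⟨hK, hFK, hKL⟩, hX, hr'⟩
      have hXF : X ∪ F ⊆ K := union_subset (hX.trans sdiff_subset) hFK
      exact ⟨cl_unique hr hK hXF hr', hX.trans (sdiff_subset_sdiff hKL (subset_refl _))⟩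
    · rintro ⟨hK, hX⟩
      have hXL : X ∪ F ⊆ L := union_subset (hX.trans sdiff_subset) hFL
      have hXE : X ∪ F ⊆ E := hXL.trans hLE
      have hs := sub_cl (r := r) hXE
      rw [← hK] at hs
      refine ⟨⟨?_, (subset_union_right).trans hs, ?_⟩, ?_, ?_⟩
      · rw [hK]; exact cl_fl hr hXE
      · rw [hK]; exact cl_min hr hL hXL
      · intro x hx
        rw [mem_sdiff]
        exact ⟨hs (mem_union_left _ hx), (mem_sdiff.1 (hX hx)).2⟩
      · rw [hK, r_cl hr hXE]
  rw [h1]
  simp only [sum_singleton]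
  rw [Finset.sum_powerset_neg_one_pow_card]
  have h2 : (L \ F = ∅) ↔ (F = L) := by
    rw [sdiff_eq_empty_iff_subset]
    exact ⟨fun h => Subset.antisymm hFL h, fun h => h ▸ subset_refl _⟩
  simp only [h2]

/-- `ζ m = 1` -/
theorem sum_q' {r : Finset α → ℕ} (hr : IsRk r) {E W : Finset α} (hW : W ∈ fl r E) :
    ∑ F ∈ (fl r E).filter (fun F => W ⊆ F), q r F E = if W = E then 1 else 0 := by
  let I := {F : Finset α // F ∈ fl r E}
  let Mm : Matrix I I ℤ := fun F K => if F.1 ⊆ K.1 then q r F.1 K.1 else 0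
  let Zt : Matrix I I ℤ := fun K L => if K.1 ⊆ L.1 then 1 else 0
  have h1 : Mm * Zt = 1 := by
    ext F L
    rw [Matrix.mul_apply, Matrix.one_apply]
    have e1 : ∑ K : I, Mm F K * Zt K L =
        ∑ K ∈ (fl r E), (if F.1 ⊆ K ∧ K ⊆ L.1 then q r F.1 K else 0) := by
      rw [← Finset.sum_coe_sort (fl r E)]
      refine Finset.sum_congr rfl fun K _ => ?_
      show (if F.1 ⊆ K.1 then q r F.1 K.1 else 0) * (if K.1 ⊆ L.1 then 1 else 0) = _
      by_cases a : F.1 ⊆ K.1 <;> by_cases b : K.1 ⊆ L.1 <;> simp [a, b]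
    rw [e1, ← Finset.sum_filter]
    by_cases hFL : F.1 ⊆ L.1
    · rw [sum_q hr L.2 hFL]
      by_cases h : F = L
      · rw [if_pos h, if_pos (by rw [h])]
      · rw [if_neg h, if_neg (fun h' => h (Subtype.ext h'))]
    · rw [if_neg (fun h => hFL (by rw [h]))]
      refine Finset.sum_eq_zero fun K hK => ?_
      rw [mem_filter] at hK
      exact absurd (hK.2.1.trans hK.2.2) hFL
  have h2 : Zt * Mm = 1 := mul_eq_one_comm.1 h1
  have h3 := congrFun (congrFun h2 ⟨W, hW⟩) ⟨E, E_fl⟩
  rw [Matrix.mul_apply, Matrix.one_apply] at h3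
  have e2 : ∑ K : I, Zt ⟨W, hW⟩ K * Mm K ⟨E, E_fl⟩ =
      ∑ F ∈ (fl r E), (if W ⊆ F then q r F E else 0) := by
    rw [← Finset.sum_coe_sort (fl r E)]
    refine Finset.sum_congr rfl fun K _ => ?_
    show (if W ⊆ K.1 then 1 else 0) * (if K.1 ⊆ E then q r K.1 E else 0) = _
    have hKE : K.1 ⊆ E := mem_powerset.1 (mem_filter.1 K.2).1
    by_cases a : W ⊆ K.1 <;> simp [a, hKE]
  rw [e2, ← Finset.sum_filter] at h3
  rw [h3]
  by_cases h : W = E
  · subst h; simp
  · rw [if_neg h, if_neg (fun h' => h (congrArg Subtype.val h'))]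

theorem split_sum (E : Finset α) (e : α) (he : e ∈ E)
    (f : Finset α → ℤ) : ∑ X ∈ E.powerset, f X =
      ∑ X ∈ (E.erase e).powerset, (f X + f (insert e X)) := by
  have h := Finset.sum_powerset_insert (Finset.notMem_erase e E) f
  rw [Finset.insert_erase he] at h
  rw [h, sum_add_distrib]

/-- **GG ID1.** -/
theorem t : StID1 := by
  intro α _ r E p hr _ hp
  have e1 : ∑ F ∈ (fl r E).filter (fun F => p ∈ F), beta r F * mc r E F =
      ∑ F ∈ (fl r E).filter (fun F => p ∈ F), ∑ X ∈ F.powerset,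
        (-1) ^ (r E) * ((-1 : ℤ) ^ X.card * (r X : ℤ)) * q r F E := by
    refine Finset.sum_congr rfl fun F hF => ?_
    rw [mem_filter] at hF
    have hFE : F ⊆ E := mem_powerset.1 (mem_filter.1 hF.1).1
    rw [mc_eq hr hFE, ← Finset.sum_mul, ← Finset.mul_sum]
    unfold beta
    have h2 : (-1 : ℤ) ^ (r E) = (-1) ^ (r F) * (-1) ^ (r E - r F) := by
      rw [← pow_add, Nat.add_sub_cancel' (hr.mono _ _ hFE)]
    rw [h2]; ring
  have e2 : ∑ F ∈ (fl r E).filter (fun F => p ∈ F), ∑ X ∈ F.powerset,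
        (-1) ^ (r E) * ((-1 : ℤ) ^ X.card * (r X : ℤ)) * q r F E =
      ∑ X ∈ E.powerset, ∑ F ∈ (fl r E).filter (fun F => cl r E (insert p X) ⊆ F),
        (-1) ^ (r E) * ((-1 : ℤ) ^ X.card * (r X : ℤ)) * q r F E := by
    refine Finset.sum_comm' ?_
    intro F X
    rw [mem_filter, mem_filter, mem_powerset, mem_powerset]
    constructor
    · rintro ⟨⟨hF, hpF⟩, hX⟩
      exact ⟨⟨hF, cl_min hr hF (insert_subset hpF hX)⟩,
        hX.trans (mem_powerset.1 (mem_filter.1 hF).1)⟩
    · rintro ⟨⟨hF, hc⟩, hX⟩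
      have h := (sub_cl (r := r) (insert_subset hp hX)).trans hc
      exact ⟨⟨hF, h (mem_insert_self _ _)⟩, (subset_insert _ _).trans h⟩
  have e3 : ∀ X ∈ E.powerset, ∑ F ∈ (fl r E).filter (fun F => cl r E (insert p X) ⊆ F),
        (-1) ^ (r E) * ((-1 : ℤ) ^ X.card * (r X : ℤ)) * q r F E =
      if r (insert p X) = r E then (-1) ^ (r E) * ((-1 : ℤ) ^ X.card * (r X : ℤ)) else 0 := by
    intro X hX
    have hs : insert p X ⊆ E := insert_subset hp (mem_powerset.1 hX)
    rw [← Finset.mul_sum, sum_q' hr (cl_fl hr hs)]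
    have hiff : cl r E (insert p X) = E ↔ r (insert p X) = r E := by
      constructor
      · intro h; rw [← r_cl hr hs, h]
      · intro h; exact (cl_unique hr E_fl hs h).symm
    simp only [hiff]
    split_ifs <;> simp
  rw [e1, e2, Finset.sum_congr rfl e3, split_sum E p hp]
  have e4 : mu r E = ∑ X ∈ E.powerset, if r X = r E then (-1 : ℤ) ^ (r E) * (-1) ^ X.card else 0 := by
    unfold mu
    rw [Finset.mul_sum, Finset.sum_filter]
  rw [e4, split_sum E p hp]
  refine Finset.sum_congr rfl fun X hX => ?_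
  have hX' : X ⊆ E.erase p := mem_powerset.1 hX
  have hpX : p ∉ X := fun h => notMem_erase p E (hX' h)
  have hXE : insert p X ⊆ E := insert_subset hp (hX'.trans (erase_subset _ _))
  have h1 := hr.mono _ _ hXE
  have h2 := hr.mono _ _ (subset_insert p X)
  have h3 := hr.insert_le X p
  rw [insert_idem, card_insert_of_notMem hpX]
  by_cases a : r (insert p X) = r E
  · rw [if_pos a, if_pos a, if_pos a, a]
    by_cases b : r X = r E
    · rw [if_pos b, b]; ring
    · rw [if_neg b]
      have h4 : (r E : ℤ) = r X + 1 := by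
        have : r E = r X + 1 := by omega
        exact_mod_cast this
      rw [h4]; ring
  · rw [if_neg a, if_neg a, if_neg a, if_neg (by omega)]

end Pool.Agent.K7.H63.GGID1
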