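import Pool.Agent.K7.H50.OG.Basic

/-!
# Project OG (MP_23a060_co): the pendant words VA, VB, VC
-/

set_option autoImplicit false

namespace Pool.Agent.K7.H63.OG

open Pool.Agent.K7.H50.OG

/-- the word `0 1^s 4^a 3^(k-a-1) 1^t 2 1^(k-b)`, `s + t + 2 = b` -/
def wd (k a s t x : ℕ) : Fin 5 :=
  if x ≤ 1 then 0 else if x ≤ s + 1 then 1 else if x ≤ s + 1 + a then 4 else if x ≤ s + k then 3
  else if x ≤ s + t + k then 1 else if x ≤ s + t + k + 1 then 2 else 1

/-- the class of a vertex -/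
def cl (u1 u2 u3 u4 u5 u6 v : ℕ) : Fin 5 :=
  if v ≤ u1 then 0 else if v ≤ u2 then 1 else if v ≤ u3 then 4 else if v ≤ u4 then 3
  else if v ≤ u5 then 1 else if v ≤ u6 then 2 else 1

/-- the cuts of a copy -/
theorem cuts {k a b s t : ℕ} {E : Gr} (ha : 1 < a) (hak : a < k) (hbk : b < k)
    (hst : s + t + 2 = b) (hd : ¬ Dead k E) :
    ∃ u1 u2 u3 u4 u5 u6 : ℕ, u1 ≤ 1 ∧ u1 ≤ u2 ∧ u2 ≤ u3 ∧ u3 ≤ u4 ∧ u4 ≤ u5 ∧ u5 ≤ u6 ∧ u6 ≤ k ∧
      u2 ≤ u1 + s ∧ u3 ≤ u2 + a ∧ u4 + a + 1 ≤ u3 + k ∧ u5 ≤ u4 + t ∧ u6 ≤ u5 + 1 ∧ b ≤ u6 ∧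
      ∀ i j, 1 ≤ i → i < j → j ≤ k → E i j →
        rg (cl u1 u2 u3 u4 u5 u6 i) (cl u1 u2 u3 u4 u5 u6 j) := by
  have h1 := not_exists.1 hd (wd k a s t)
  rw [not_not] at h1
  obtain ⟨f, hf1, hf2, hf3⟩ := h1
  obtain ⟨u1, a1, b1, c1⟩ := cut hf2 1
  obtain ⟨u2, a2, b2, c2⟩ := cut hf2 (s + 1)
  obtain ⟨u3, a3, b3, c3⟩ := cut hf2 (s + 1 + a)
  obtain ⟨u4, a4, b4, c4⟩ := cut hf2 (s + k)
  obtain ⟨u5, a5, b5, c5⟩ := cut hf2 (s + t + k)
  obtain ⟨u6, a6, b6, c6⟩ := cut hf2 (s + t + k + 1)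
  have le : ∀ {u u' T T' : ℕ}, u ≤ k → (∀ i, 1 ≤ i → i ≤ u → f i ≤ T) →
      (∀ i, u' < i → i ≤ k → T' < f i) → T ≤ T' → u ≤ u' := by
    intro u u' T T' h1 h2 h3 h4
    by_contra h5
    have h6 := h2 u (by omega) le_rfl
    have h7 := h3 u (by omega) h1
    omega
  have l12 : u1 ≤ u2 := le a1 b1 c2 (by omega)
  have l23 : u2 ≤ u3 := le a2 b2 c3 (by omega)
  have l34 : u3 ≤ u4 := le a3 b3 c4 (by omega)
  have l45 : u4 ≤ u5 := le a4 b4 c5 (by omega)
  have l56 : u5 ≤ u6 := le a5 b5 c6 (by omega)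
  have r12 := run_card hf2 a2 l12 c1 b2
  have r23 := run_card hf2 a3 l23 c2 b3
  have r34 := run_card hf2 a4 l34 c3 b4
  have r45 := run_card hf2 a5 l45 c4 b5
  have r56 := run_card hf2 a6 l56 c5 b6
  have hu1 : u1 ≤ 1 := by
    by_contra h
    have h2 := mono_gap hf2 (i := 1) (j := u1) le_rfl (by omega) a1
    have h3 := b1 u1 (by omega) le_rfl
    have h4 := (hf1 1 le_rfl (by omega)).1
    omega
  have hb6 : b ≤ u6 := by
    by_contra h
    have h2 := mono_gap hf2 (i := u6 + 1) (j := k) (by omega) (by omega) le_rfl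
    have h3 := c6 (u6 + 1) (by omega) (by omega)
    have h4 := (hf1 k (by omega) le_rfl).2
    omega
  refine ⟨u1, u2, u3, u4, u5, u6, hu1, l12, l23, l34, l45, l56, a6, by omega, by omega, by omega,
    by omega, by omega, hb6, ?_⟩
  have hcl : ∀ v, 1 ≤ v → v ≤ k → wd k a s t (f v) = cl u1 u2 u3 u4 u5 u6 v := by
    intro v hv hvk
    unfold wd cl
    have e1 : f v ≤ 1 ↔ v ≤ u1 :=
      ⟨fun h => by by_contra h2; have := c1 v (by omega) hvk; omega, fun h => b1 v hv h⟩
    have e2 : f v ≤ s + 1 ↔ v ≤ u2 :=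
      ⟨fun h => by by_contra h2; have := c2 v (by omega) hvk; omega, fun h => b2 v hv h⟩
    have e3 : f v ≤ s + 1 + a ↔ v ≤ u3 :=
      ⟨fun h => by by_contra h2; have := c3 v (by omega) hvk; omega, fun h => b3 v hv h⟩
    have e4 : f v ≤ s + k ↔ v ≤ u4 :=
      ⟨fun h => by by_contra h2; have := c4 v (by omega) hvk; omega, fun h => b4 v hv h⟩
    have e5 : f v ≤ s + t + k ↔ v ≤ u5 :=
      ⟨fun h => by by_contra h2; have := c5 v (by omega) hvk; omega, fun h => b5 v hv h⟩
    have e6 : f v ≤ s + t + k + 1 ↔ v ≤ u6 :=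
      ⟨fun h => by by_contra h2; have := c6 v (by omega) hvk; omega, fun h => b6 v hv h⟩
    simp only [e1, e2, e3, e4, e5, e6]
  intro i j hi hij hj hE
  have h := hf3 i j hi hij hj hE
  simp only [hcl i hi (by omega), hcl j (by omega) hj] at h
  exact h

/-- the analysis of the pendant words -/
theorem core {k a b s t : ℕ} {E : Gr} (h : Lf2 k E a b) (hab : a + 2 ≤ b) (hst : s + t + 2 = b)
    (hd : ¬ Dead k E) :
    ∃ u1 u2 u3 u4 r : ℕ, u1 ≤ 1 ∧ u1 ≤ u2 ∧ u2 ≤ u3 ∧ u3 ≤ u4 ∧ u2 < u4 ∧ u4 < r ∧ b ≤ r ∧ r < k ∧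
      u2 ≤ u1 + s ∧ r ≤ u4 + 1 + t ∧ (a ≤ u2 ∨ u4 < a) ∧
      (u1 = 1 → b < r ∧ (u2 < b → b ≤ u4 → b ≤ u3)) ∧
      (u1 = 0 → 1 ≤ u2 → (b ≤ u2 ∨ u4 < b)) ∧
      (∀ i j, 1 ≤ i → i < j → j ≤ k → E i j → (u2 < i → i ≤ u4 → (j ≤ u4 ∨ j = r)) ∧
        (u2 < j → j ≤ u4 → (u2 < i ∨ i ≤ u1))) ∧ ∀ x, u2 < x → x ≤ u3 → ¬ E x r := by
  have ha := h.ha
  have hb := h.hb
  obtain ⟨u1, u2, u3, u4, u5, u6, h1, h12, h23, h34, h45, h56, h6k, s12, s23, s34, s45, s56, hb6,
    hE⟩ := cuts (a := a) ha (by omega) hb hst hd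
  have e1b := hE 1 b le_rfl (by omega) (by omega) h.e1
  have eak := hE a k (by omega) (by omega) le_rfl h.ek
  -- the part PQ is not empty
  have hI : u2 < u4 := by
    by_contra hc
    have q1 : u1 = 1 := by omega
    have q2 : u6 = b := by omega
    have q3 : u5 + 1 = b := by omega
    unfold cl at e1b
    rw [if_pos (by omega : 1 ≤ u1), if_neg (by omega), if_neg (by omega), if_neg (by omega),
      if_neg (by omega), if_neg (by omega), if_pos (by omega)] at e1b
    exact absurd e1b (by decide)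
  -- the part A is not empty
  have hA : ¬ (u1 = u2 ∧ u4 = u5 ∧ u6 = k) := by
    rintro ⟨q1, q2, q3⟩
    by_cases q : u1 = 1
    · unfold cl at e1b
      rw [if_pos (by omega : 1 ≤ u1), if_neg (by omega), if_neg (by omega), if_neg (by omega)] at e1b
      split_ifs at e1b <;> first | exact absurd e1b (by decide) | omega
    · unfold cl at eak
      rw [if_neg (by omega : ¬ a ≤ u1), if_neg (by omega), if_pos (by omega), if_neg (by omega),
        if_neg (by omega), if_neg (by omega), if_neg (by omega), if_neg (by omega),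
        if_pos (by omega)] at eak
      exact absurd eak (by decide)
  -- the last letter of the class 2 is used, and not by `k`
  have hz : u5 < u6 ∧ u6 < k := by
    by_contra hz
    let S : ℕ → Prop := fun v => (u2 < v ∧ v ≤ u4) ∨ (v = 1 ∧ u1 = 1 ∧ u2 < b ∧ b ≤ u4) ∨
      (v = k ∧ u6 = k ∧ u5 < k ∧ u2 < a ∧ a ≤ u4)
    have hS := h.con.closed S (i := u4) (by
      intro i j hi hij hj hEij
      have hr := hE i j hi hij hj hEij
      by_cases hiI : u2 < i ∧ i ≤ u4
      · by_cases hjI : u2 < j ∧ j ≤ u4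
        · exact ⟨fun _ => Or.inl hjI, fun _ => Or.inl hiI⟩
        · have q : u5 < j ∧ j ≤ u6 := by
            by_contra q
            unfold cl at hr
            rw [if_neg (by omega : ¬ i ≤ u1), if_neg (by omega : ¬ i ≤ u2),
              if_neg (by omega : ¬ j ≤ u1), if_neg (by omega : ¬ j ≤ u2),
              if_neg (by omega : ¬ j ≤ u3), if_neg (by omega : ¬ j ≤ u4)] at hr
            split_ifs at hr <;> first | exact absurd hr (by decide) | omega
          have q2 : j = k := by omega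
          subst q2
          have q3 := h.uk i hi hij hEij
          refine ⟨fun _ => Or.inr (Or.inr ⟨rfl, by omega, by omega, by omega, by omega⟩),
            fun _ => Or.inl hiI⟩
      · by_cases hjI : u2 < j ∧ j ≤ u4
        · have q : i ≤ u1 := by
            by_contra q
            unfold cl at hr
            rw [if_neg (by omega : ¬ i ≤ u1), if_pos (by omega : i ≤ u2),
              if_neg (by omega : ¬ j ≤ u1), if_neg (by omega : ¬ j ≤ u2)] at hr
            split_ifs at hr <;> first | exact absurd hr (by decide) | omega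
          have q2 : i = 1 := by omega
          subst q2
          have q3 := h.v1 j hij hj hEij
          refine ⟨fun _ => Or.inl hjI, fun _ => Or.inr (Or.inl ⟨rfl, by omega, by omega, by omega⟩)⟩
        · constructor
          · rintro (q | ⟨q1, q2, q3⟩ | ⟨q1, q2⟩)
            · exact absurd q hiI
            · subst q1
              have q4 := h.v1 j hij hj hEij
              subst q4
              exact absurd q3 hjI
            · omega
          · rintro (q | ⟨q1, q2⟩ | ⟨q1, q2, q3, q4⟩)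
            · exact absurd q hjI
            · omega
            · subst q1
              have q5 := h.uk i hi hij hEij
              subst q5
              exact absurd q4 hiI) (by omega) (by omega) (Or.inl ⟨hI, le_rfl⟩)
    apply hA
    refine ⟨?_, ?_, ?_⟩
    · by_contra q
      rcases hS u2 (by omega) (by omega) with q1 | q1 | q1 <;> omega
    · by_contra q
      rcases hS u5 (by omega) (by omega) with q1 | q1 | q1 <;> omega
    · by_contra q
      rcases hS k (by omega) le_rfl with q1 | q1 | q1 <;> omega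
  obtain ⟨hz1, hz2⟩ := hz
  refine ⟨u1, u2, u3, u4, u6, h1, h12, h23, h34, hI, by omega, hb6, hz2, s12, by omega, ?_, ?_, ?_,
    ?_, ?_⟩
  · by_contra q
    unfold cl at eak
    rw [if_neg (by omega : ¬ a ≤ u1), if_neg (by omega : ¬ a ≤ u2), if_neg (by omega : ¬ k ≤ u1),
      if_neg (by omega : ¬ k ≤ u2), if_neg (by omega : ¬ k ≤ u3), if_neg (by omega : ¬ k ≤ u4),
      if_neg (by omega : ¬ k ≤ u5), if_neg (by omega : ¬ k ≤ u6)] at eak
    split_ifs at eak <;> first | exact absurd eak (by decide) | omega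
  · intro q
    unfold cl at e1b
    rw [if_pos (by omega : 1 ≤ u1), if_neg (by omega : ¬ b ≤ u1)] at e1b
    constructor
    · by_contra q1
      rw [if_neg (by omega : ¬ b ≤ u2), if_neg (by omega : ¬ b ≤ u3), if_neg (by omega : ¬ b ≤ u4),
        if_neg (by omega : ¬ b ≤ u5), if_pos (by omega : b ≤ u6)] at e1b
      exact absurd e1b (by decide)
    · intro q1 q2
      by_contra q3
      rw [if_neg (by omega : ¬ b ≤ u2), if_neg (by omega : ¬ b ≤ u3),
        if_pos (by omega : b ≤ u4)] at e1b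
      exact absurd e1b (by decide)
  · intro q1 q2
    by_contra q3
    unfold cl at e1b
    rw [if_neg (by omega : ¬ 1 ≤ u1), if_pos (by omega : 1 ≤ u2), if_neg (by omega : ¬ b ≤ u1),
      if_neg (by omega : ¬ b ≤ u2)] at e1b
    split_ifs at e1b <;> first | exact absurd e1b (by decide) | omega
  · intro i j hi hij hj hEij
    have hr := hE i j hi hij hj hEij
    unfold cl at hr
    constructor
    · intro q1 q2
      by_contra q3
      rw [if_neg (by omega : ¬ i ≤ u1), if_neg (by omega : ¬ i ≤ u2),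
        if_neg (by omega : ¬ j ≤ u1), if_neg (by omega : ¬ j ≤ u2),
        if_neg (by omega : ¬ j ≤ u3), if_neg (by omega : ¬ j ≤ u4)] at hr
      split_ifs at hr <;> first | exact absurd hr (by decide) | omega
    · intro q1 q2
      by_contra q3
      rw [if_neg (by omega : ¬ i ≤ u1), if_pos (by omega : i ≤ u2),
        if_neg (by omega : ¬ j ≤ u1), if_neg (by omega : ¬ j ≤ u2)] at hr
      split_ifs at hr <;> first | exact absurd hr (by decide) | omega
  · intro x q1 q2 hEx
    have hr := hE x u6 (by omega) (by omega) (by omega) hEx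
    unfold cl at hr
    rw [if_neg (by omega : ¬ x ≤ u1), if_neg (by omega : ¬ x ≤ u2), if_pos (by omega : x ≤ u3),
      if_neg (by omega : ¬ u6 ≤ u1), if_neg (by omega : ¬ u6 ≤ u2), if_neg (by omega : ¬ u6 ≤ u3),
      if_neg (by omega : ¬ u6 ≤ u4), if_neg (by omega : ¬ u6 ≤ u5), if_pos (by omega)] at hr
    exact absurd hr (by decide)

/-- JOB VA -/
theorem stVA : StVA := by
  intro k E a b h hab
  by_cases hd : Dead k E
  · exact Or.inl hd
  right
  have ha := h.ha
  obtain ⟨u1, u2, u3, u4, r, h1, h12, h23, h34, h24, h4r, hbr, hrk, s1, s2, ha', f1, f2, hE, hQ⟩ :=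
    core h hab (show (a - 2) + (b - a) + 2 = b by omega) hd
  have q1 : u1 = 0 := by
    by_contra q
    have q2 := f1 (by omega)
    omega
  have q4 : u4 + 1 = a := by omega
  have q5 : r = b := by omega
  refine ⟨u2 + 1, by omega, by omega, ?_⟩
  intro i j hi hij hj hEij
  obtain ⟨g1, g2⟩ := hE i j hi hij hj hEij
  constructor
  · rintro ⟨p1, p2⟩ p3
    have := g1 (by omega) (by omega)
    omega
  · rintro ⟨p1, p2⟩ p3
    have := g2 (by omega) (by omega)
    omega

/-- JOB VB -/
theorem stVB : StVB := by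
  intro k E a b h hab
  by_cases hd : Dead k E
  · exact Or.inl hd
  right
  have ha := h.ha
  obtain ⟨u1, u2, u3, u4, r, h1, h12, h23, h34, h24, h4r, hbr, hrk, s1, s2, ha', f1, f2, hE, hQ⟩ :=
    core h hab (show (a - 1) + (b - a - 1) + 2 = b by omega) hd
  have q1 : u1 = 1 := by
    by_contra q
    omega
  have q2 := (f1 q1).1
  have q4 : u2 = a := by omega
  refine ⟨u4, r, by omega, h4r, q2, hrk, ?_⟩
  intro i j hi hij hj hEij
  obtain ⟨g1, g2⟩ := hE i j (by omega) hij (by omega) hEij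
  constructor
  · rintro ⟨p1, p2⟩ p3
    have := g1 (by omega) (by omega)
    omega
  · rintro ⟨p1, p2⟩ p3
    have := g2 (by omega) (by omega)
    omega

/-- JOB VC -/
theorem stVC : StVC := by
  intro k E a b h hab
  by_cases hd : Dead k E
  · exact Or.inl hd
  right
  have ha := h.ha
  obtain ⟨u1, u2, u3, u4, r, h1, h12, h23, h34, h24, h4r, hbr, hrk, s1, s2, ha', f1, f2, hE, hQ⟩ :=
    core (s := b - 2) (t := 0) h hab (by omega) hd
  have q3 : a ≤ u2 := by omega
  by_cases q1 : u1 = 1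
  · right
    obtain ⟨q2, q4⟩ := f1 q1
    have q5 := q4 (by omega) (by omega)
    refine ⟨u2 + 1, r, by omega, by omega, q2, hrk, ?_, ?_⟩
    · intro i j hi hij hj hEij
      obtain ⟨g1, g2⟩ := hE i j (by omega) hij (by omega) hEij
      constructor
      · rintro ⟨p1, p2⟩ p3
        have := g1 (by omega) (by omega)
        omega
      · rintro ⟨p1, p2⟩ p3
        have := g2 (by omega) (by omega)
        omega
    · intro x hx1 hx2
      exact hQ x (by omega) (by omega)
  · left
    have q2 := f2 (by omega) (by omega)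
    refine ⟨u2 + 1, by omega, by omega, ?_⟩
    intro i j hi hij hj hEij
    obtain ⟨g1, g2⟩ := hE i j (by omega) hij (by omega) hEij
    constructor
    · rintro ⟨p1, p2⟩ p3
      have := g1 (by omega) (by omega)
      omega
    · rintro ⟨p1, p2⟩ p3
      have := g2 (by omega) (by omega)
      omega

end Pool.Agent.K7.H63.OG
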