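import Mathlib
import Pool.Agent.K7.H16.SG.Stm

set_option autoImplicit false

/-! Project SG, job SPL. Author: helper63. -/

namespace Pool.Agent.K7.H63.SGSPL
open Finset Pool.Agent.K7.H16.SG

theorem t (hW : StW) : StSpl := by
  intro A i g h hi
  have hw := hW.1
  have hcard : ∀ (B : Finset ℕ) (u : List ℕ), u ∈ words B → u.length = B.card := by
    intro B u hu
    rw [hw] at hu
    rw [← hu.2, List.toFinset_card_of_nodup hu.1]
  have e1 : ∑ B ∈ powersetCard i A, (∑ u ∈ words B, g u) * ∑ v ∈ words (A \ B), h v =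
      ∑ x ∈ (powersetCard i A).sigma (fun B => words B ×ˢ words (A \ B)), g x.2.1 * h x.2.2 := by
    rw [Finset.sum_sigma]
    apply Finset.sum_congr rfl
    intro B _
    rw [Finset.sum_mul_sum, Finset.sum_product]
  rw [e1]
  refine Finset.sum_bij' (fun w _ => ⟨(w.take i).toFinset, (w.take i, w.drop i)⟩)
    (fun x _ => x.2.1 ++ x.2.2) ?_ ?_ ?_ ?_ ?_
  · intro w hwA
    have hl := hcard A w hwA
    rw [hw] at hwA
    obtain ⟨hn, hA⟩ := hwA
    have hn2 : (w.take i ++ w.drop i).Nodup := by rw [List.take_append_drop]; exact hn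
    rw [List.nodup_append'] at hn2
    obtain ⟨h1, h2, h3⟩ := hn2
    have hsub : (w.take i).toFinset ⊆ A := by
      intro a ha
      rw [List.mem_toFinset] at ha
      rw [← hA, List.mem_toFinset]
      exact List.mem_of_mem_take ha
    rw [Finset.mem_sigma, Finset.mem_product]
    refine ⟨?_, ?_, ?_⟩
    · rw [Finset.mem_powersetCard]
      refine ⟨hsub, ?_⟩
      rw [List.toFinset_card_of_nodup h1, List.length_take, hl]
      exact min_eq_left hi
    · rw [hw]
      exact ⟨h1, rfl⟩
    · rw [hw]
      refine ⟨h2, ?_⟩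
      ext a
      rw [Finset.mem_sdiff, List.mem_toFinset, List.mem_toFinset, ← hA, List.mem_toFinset]
      constructor
      · intro ha
        exact ⟨List.mem_of_mem_drop ha, fun h4 => h3 h4 ha⟩
      · rintro ⟨ha, h4⟩
        rw [← List.take_append_drop i w, List.mem_append] at ha
        exact ha.resolve_left h4
  · rintro ⟨B, u, v⟩ hx
    rw [Finset.mem_sigma, Finset.mem_product] at hx
    obtain ⟨h1, h2, h3⟩ := hx
    simp only at h1 h2 h3 ⊢
    rw [Finset.mem_powersetCard] at h1
    rw [hw] at h2 h3 ⊢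
    constructor
    · rw [List.nodup_append']
      refine ⟨h2.1, h3.1, ?_⟩
      intro a ha hb
      have ha' : a ∈ B := by rw [← h2.2, List.mem_toFinset]; exact ha
      have hb' : a ∈ A \ B := by rw [← h3.2, List.mem_toFinset]; exact hb
      exact (Finset.mem_sdiff.1 hb').2 ha'
    · rw [List.toFinset_append, h2.2, h3.2]
      exact Finset.union_sdiff_of_subset h1.1
  · intro w _
    exact List.take_append_drop i w
  · rintro ⟨B, u, v⟩ hx
    rw [Finset.mem_sigma, Finset.mem_product] at hx
    obtain ⟨h1, h2, h3⟩ := hx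
    simp only at h1 h2 h3 ⊢
    have hl := hcard B u h2
    rw [Finset.mem_powersetCard] at h1
    rw [hw] at h2
    have hl2 : u.length = i := hl.trans h1.2
    have e2 : (u ++ v).take i = u := by rw [← hl2]; exact List.take_left
    have e3 : (u ++ v).drop i = v := by rw [← hl2]; exact List.drop_left
    rw [e2, e3, h2.2]
  · intro w _
    rfl

end Pool.Agent.K7.H63.SGSPL
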